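import Pool.Agent.X84.Sp.Sys
import Pool.Agent.Y326.Appr

/-!
# The composition operator, and conclusions in terms of points
-/

set_option autoImplicit false

open Filter Topology MeasureTheory Finset

namespace Pool.Agent.X84.Sp

open Pool.Agent.TH327.Thin
open Pool.Agent.Y326 (TwoPoint S_mono S_const S_cmul S_sum S_shift S_cs ex norm_ex ex_add tm wn LW
  lw_of lw_closure lw_scales LD1 fs iter_le)
open Pool.Agent.TH833.BL (S H H_le le_H one_le_log S_add)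

variable {X : Type*} [TopologicalSpace X] [CompactSpace X] {f : ℕ → ℤ} {K : Set UnitAddCircle}

/-- the composition operator -/
noncomputable def cop {T : X → X} (hTc : Continuous T) : C(X, ℂ) →L[ℂ] C(X, ℂ) :=
  LinearMap.mkContinuous
    { toFun := fun g => g.comp ⟨T, hTc⟩
      map_add' := fun _ _ => rfl
      map_smul' := fun _ _ => rfl } 1 (fun g => by
        rw [one_mul]
        exact (ContinuousMap.norm_le _ (norm_nonneg _)).2 fun x => g.norm_coe_le_norm _)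

theorem cop_norm {T : X → X} (hTc : Continuous T) : ‖cop hTc‖ ≤ 1 :=
  LinearMap.mkContinuous_norm_le _ zero_le_one _

theorem cop_iter {T : X → X} (hTc : Continuous T) (g : C(X, ℂ)) (n : ℕ) :
    ((cop hTc)^[n]) g = orb hTc g n := by
  induction n with
  | zero => rfl
  | succ n ih =>
    rw [Function.iterate_succ_apply', ih]
    ext x
    show g (T^[n] (T x)) = g (T^[n + 1] x)
    rw [Function.iterate_succ_apply]

/-- functions with spectrum in a closed null set -/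
def NS (T : X → X) : Set C(X, ℂ) :=
  {g | ∃ K : Set UnitAddCircle, IsClosed K ∧ volume K = 0 ∧
    ∃ B : ℝ, ∀ x, ∃ a : ℤ → ℂ, (∀ n, ‖a n‖ ≤ B) ∧ (∀ n : ℕ, 1 ≤ n → a n = g (T^[n] x)) ∧ SpecIn K a}

theorem specIn_smul {a : ℤ → ℂ} (c : ℂ) (h : SpecIn K a) : SpecIn K (fun n => c * a n) := by
  intro d hd hU
  have h1 := h d hd hU
  have e : ∀ n, d n • (c * a n) = c * (d n • a n) := fun n => by
    simp only [smul_eq_mul]; ring
  simp only [e]
  rw [tsum_mul_left, h1, mul_zero]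

theorem lw_NS (hf : ∀ n, |f n| ≤ 1) (hT : TwoPoint f) {T : X → X} (hTc : Continuous T) {g : C(X, ℂ)}
    (hg : g ∈ NS T) : LW f (fun n => ((cop hTc)^[n]) g) := by
  obtain ⟨K, hK, hK0, B, hB⟩ := hg
  obtain ⟨b, hb⟩ : ∃ b : ℝ, b = max B 1 := ⟨_, rfl⟩
  have hb1 : 1 ≤ b := hb ▸ le_max_right _ _
  have hb0 : (b : ℂ) ≠ 0 := by
    have : (b : ℝ) ≠ 0 := by linarith
    exact_mod_cast this
  have h1 : USpec T K (((1 / b : ℝ) : ℂ) • g) := by
    intro x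
    obtain ⟨a, ha1, ha2, ha3⟩ := hB x
    refine ⟨fun n => ((1 / b : ℝ) : ℂ) * a n, fun n => ?_, fun n hn => ?_, specIn_smul _ ha3⟩
    · rw [norm_mul, Complex.norm_real, Real.norm_eq_abs, abs_of_pos (by positivity)]
      have h2 : ‖a n‖ ≤ b := (ha1 n).trans (hb ▸ le_max_left _ _)
      calc 1 / b * ‖a n‖ ≤ 1 / b * b := mul_le_mul_of_nonneg_left h2 (by positivity)
        _ = 1 := by field_simp
    · show _ = ((1 / b : ℝ) : ℂ) * g (T^[n] x)
      rw [← ha2 n hn]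
  have hK0' : volume.real K = 0 := by rw [Measure.real, hK0]; rfl
  have h2 := lw_null hf hT hK hK0' hTc h1
  have h3 := LW.smul (b : ℂ) h2
  refine (congrArg (LW f) (funext fun n => ?_)).mp h3
  rw [cop_iter]
  ext x
  show (b : ℂ) * (((1 / b : ℝ) : ℂ) * g (T^[n] x)) = g (T^[n] x)
  push_cast
  field_simp

theorem lw_cl (hf : ∀ n, |f n| ≤ 1) (hT : TwoPoint f) {T : X → X} (hTc : Continuous T) {g : C(X, ℂ)}
    (hg : g ∈ closure (NS T)) : LW f (fun n => ((cop hTc)^[n]) g) := by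
  refine lw_closure hf (cop_norm hTc) (NS T) (fun g hg => lw_NS hf hT hTc hg) g ?_
  have h1 : closure (NS T) ⊆ closure ((Submodule.span ℂ (NS T) : Submodule ℂ C(X, ℂ)) : Set C(X, ℂ)) :=
    closure_mono Submodule.subset_span
  exact h1 hg

theorem tm_cop {T : X → X} (hTc : Continuous T) (g : C(X, ℂ)) (θ : ℝ) (m : ℕ) (x : X) :
    (tm f (fun n => ((cop hTc)^[n]) g) θ m) x = ((f m : ℂ) * ex (m * θ)) * g (T^[m] x) := by
  have h1 : tm f (fun n => ((cop hTc)^[n]) g) θ m =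
      (((f m : ℤ) : ℂ) * ex (m * θ)) • ((cop hTc)^[m]) g := rfl
  rw [h1, cop_iter]
  rfl

theorem win_pt (hf : ∀ n, |f n| ≤ 1) {T : X → X} (hTc : Continuous T) {g : C(X, ℂ)}
    (h : LW f (fun n => ((cop hTc)^[n]) g)) (ε : ℝ) (hε : 0 < ε) :
    ∃ L₀ : ℕ, ∀ L : ℕ, L₀ ≤ L → ∃ N₀ : ℕ, ∀ N : ℕ, N₀ ≤ N → ∀ (θ : ℝ) (y : ℕ → X),
      ∑ n ∈ Icc 1 N, (1 / (n : ℝ)) *
        ‖∑ h ∈ range L, (f (n + h) : ℂ) * ex (h * θ) * g (T^[n + h] (y n))‖ ≤
        ε * L * Real.log N := by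
  obtain ⟨M₀, hM₀⟩ := h ε hε
  refine ⟨M₀, fun L hL => ?_⟩
  obtain ⟨N₀, hN₀⟩ := hM₀ L hL
  refine ⟨N₀, fun N hN θ y => le_trans (S_mono (fun n => ?_) N) (hN₀ N hN θ)⟩
  unfold wn
  have e3 : (∑ h ∈ range L, tm f (fun n => ((cop hTc)^[n]) g) θ (n + h)) (y n) = ex (n * θ) *
      ∑ h ∈ range L, (f (n + h) : ℂ) * ex (h * θ) * g (T^[n + h] (y n)) := by
    rw [ContinuousMap.sum_apply, mul_sum]
    refine sum_congr rfl fun k _ => ?_
    have : ex (((n + k : ℕ) : ℝ) * θ) = ex (n * θ) * ex (k * θ) := by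
      rw [← ex_add]
      congr 1
      push_cast
      ring
    rw [tm_cop, this]
    ring
  have e4 : ‖∑ h ∈ range L, (f (n + h) : ℂ) * ex (h * θ) * g (T^[n + h] (y n))‖ =
      ‖(∑ h ∈ range L, tm f (fun n => ((cop hTc)^[n]) g) θ (n + h)) (y n)‖ := by
    rw [e3, norm_mul, norm_ex, one_mul]
  rw [e4]
  exact ContinuousMap.norm_coe_le_norm _ _

theorem mean_pt (hf : ∀ n, |f n| ≤ 1) {T : X → X} (hTc : Continuous T) {g : C(X, ℂ)}
    (h : LW f (fun n => ((cop hTc)^[n]) g)) (ε : ℝ) (hε : 0 < ε) :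
    ∃ N₀ : ℕ, ∀ N : ℕ, N₀ ≤ N → ∀ (θ : ℝ) (x : X),
      ‖∑ n ∈ Icc 1 N, (f n : ℂ) * ex (n * θ) * g (T^[n] x) / n‖ ≤ ε * Real.log N := by
  obtain ⟨N₀, hN₀⟩ := h.logmean (B := ‖g‖) hf (fun n => iter_le (cop_norm hTc) n g) ε hε
  refine ⟨N₀, fun N hN θ x => ?_⟩
  refine le_trans ?_ (hN₀ N hN θ)
  have e : ∑ n ∈ Icc 1 N, (f n : ℂ) * ex (n * θ) * g (T^[n] x) / n =
      (∑ n ∈ Icc 1 N, (1 / (n : ℂ)) • tm f (fun n => ((cop hTc)^[n]) g) θ n) x := by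
    rw [ContinuousMap.sum_apply]
    refine sum_congr rfl fun n _ => ?_
    rw [ContinuousMap.smul_apply, tm_cop, smul_eq_mul]
    ring
  rw [e]
  exact ContinuousMap.norm_coe_le_norm _ _

theorem scales_pt (hf : ∀ n, |f n| ≤ 1) {T : X → X} (hTc : Continuous T) (D : Set C(X, ℂ))
    (hD : TopologicalSpace.IsSeparable D)
    (h : ∀ g ∈ D, LW f (fun n => ((cop hTc)^[n]) g)) :
    ∃ s : Set ℕ, LD1 s ∧ ∀ g ∈ D, ∀ ε : ℝ, 0 < ε → ∃ N₀ : ℕ, ∀ N ∈ s, N₀ ≤ N → ∀ x : X,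
      ‖∑ n ∈ Icc 1 N, (f n : ℂ) * g (T^[n] x)‖ ≤ ε * N := by
  obtain ⟨s, hs1, hs2⟩ := lw_scales hf (cop_norm hTc) D {0} h hD (Set.countable_singleton 0)
  refine ⟨s, hs1, fun g hg ε hε => ?_⟩
  have h1 := hs2 g hg 0 rfl
  rw [Metric.tendsto_nhds] at h1
  have h2 := h1 ε hε
  rw [eventually_inf_principal, eventually_atTop] at h2
  obtain ⟨N₀, hN₀⟩ := h2
  refine ⟨max N₀ 1, fun N hNs hN x => ?_⟩
  have hN1 : 1 ≤ N := (le_max_right _ _).trans hN
  have hN0 : (0 : ℝ) < N := by exact_mod_cast hN1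
  have h3 := hN₀ N ((le_max_left _ _).trans hN) hNs
  rw [dist_zero_right, norm_norm, norm_smul, norm_div, norm_one, Complex.norm_natCast,
    one_div, ← div_eq_inv_mul, div_lt_iff₀ hN0] at h3
  refine le_trans ?_ h3.le
  have e : ∑ n ∈ Icc 1 N, (f n : ℂ) * g (T^[n] x) =
      (fs f (fun n => ((cop hTc)^[n]) g) 0 N) x := by
    unfold fs
    rw [ContinuousMap.sum_apply]
    refine sum_congr rfl fun n _ => ?_
    rw [tm_cop]
    have : ex (n * 0) = 1 := by unfold ex; simp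
    rw [this, mul_one]
  rw [e]
  exact ContinuousMap.norm_coe_le_norm _ _

theorem uspec_coord (K : Set UnitAddCircle) : USpec (shiftK K) K (coordK K 0) := fun a =>
  ⟨fun n => a.1 n, fun n => a.2.1 _, fun n _ => by
    show _ = ((shiftK K)^[n] a).1 0
    rw [shiftK_iter, zero_add], a.2.2⟩

/-- logarithmic means of bounded sequences with spectrum in a closed set -/
theorem seq_log (hf : ∀ n, |f n| ≤ 1) (hT : TwoPoint f) (hK : IsClosed K) (ε : ℝ) (hε : 0 < ε) :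
    ∃ N₀ : ℕ, ∀ N : ℕ, N₀ ≤ N → ∀ (θ : ℝ), ∀ b ∈ XK K,
      ‖∑ n ∈ Icc 1 N, (f n : ℂ) * ex (n * θ) * b n / n‖ ≤
        (Real.sqrt (volume.real K) + ε) * Real.log N := by
  obtain ⟨N₀, h⟩ := sys_log hf hT hK (uspec_coord K) ε hε
  refine ⟨N₀, fun N hN θ b hb => le_trans (le_of_eq ?_) (h N hN θ ⟨b, hb⟩)⟩
  congr 1
  refine sum_congr rfl fun n _ => ?_
  have e : coordK K 0 ((shiftK K)^[n] ⟨b, hb⟩) = b n := by
    show ((shiftK K)^[n] ⟨b, hb⟩).1 0 = b n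
    rw [shiftK_iter, zero_add]
  rw [e]
  push_cast
  ring

end Pool.Agent.X84.Sp
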