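import Pool.Agent.Y326.Win

/-!
# Logarithmic mean squares of short sums, with the sharp constant
-/

set_option autoImplicit false

namespace Pool.Agent.X84.Sp

open Finset Filter Pool.Agent.TH112.BL Pool.Agent.Y326
open Pool.Agent.TH833.BL (S H H_le le_H one_le_log)

variable {f : ℕ → ℤ}

theorem H_le' (κ : ℝ) (hκ : 0 < κ) : ∃ N₀ : ℕ, ∀ N : ℕ, N₀ ≤ N → H N ≤ (1 + κ) * Real.log N := by
  have hlog : Tendsto (fun N : ℕ => κ * Real.log (N : ℝ)) atTop atTop :=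
    (Pool.Agent.TH833.BL.log_tendsto).const_mul_atTop hκ
  obtain ⟨N₁, hN₁⟩ := eventually_atTop.1 (hlog.eventually_ge_atTop 1)
  exact ⟨N₁, fun N hN => by linarith [H_le N, hN₁ N hN]⟩

theorem sq_expand (L : ℕ) (g : ℕ → ℝ) (c : ℕ → ℂ) :
    ‖∑ h ∈ range L, (g h : ℂ) * c h‖ ^ 2 =
      ∑ h ∈ range L, ∑ h' ∈ range L, (c h * (starRingEnd ℂ) (c h')).re * (g h * g h') := by
  have h1 : ((‖∑ h ∈ range L, (g h : ℂ) * c h‖ ^ 2 : ℝ) : ℂ) =
      (∑ h ∈ range L, (g h : ℂ) * c h) * (starRingEnd ℂ) (∑ h ∈ range L, (g h : ℂ) * c h) := by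
    rw [Complex.mul_conj, Complex.normSq_eq_norm_sq]
  have h2 := congrArg Complex.re h1
  rw [Complex.ofReal_re] at h2
  rw [h2, map_sum, sum_mul_sum, Complex.re_sum]
  refine sum_congr rfl fun h _ => ?_
  rw [Complex.re_sum]
  refine sum_congr rfl fun h' _ => ?_
  rw [map_mul, Complex.conj_ofReal]
  rw [show (g h : ℂ) * c h * ((g h' : ℂ) * (starRingEnd ℂ) (c h')) =
    ((g h * g h' : ℝ) : ℂ) * (c h * (starRingEnd ℂ) (c h')) by push_cast; ring]
  rw [Complex.re_ofReal_mul]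
  ring

/-- **The mean square, with the sharp constant.** -/
theorem meansq' (hf : ∀ n, |f n| ≤ 1) (hT : TwoPoint f) (L : ℕ) (hL : 1 ≤ L) (κ : ℝ) (hκ : 0 < κ) :
    ∃ N₀ : ℕ, 3 ≤ N₀ ∧ ∀ N : ℕ, N₀ ≤ N → ∀ c : ℕ → ℂ,
      S (fun n => ‖∑ h ∈ range L, ((f (n + h) : ℝ) : ℂ) * c h‖ ^ 2) N ≤
        (1 + κ) * (∑ h ∈ range L, ‖c h‖ ^ 2) * Real.log N := by
  obtain ⟨N₁, hN₁⟩ := gram hf hT L (κ / 2 / L) (by positivity)
  obtain ⟨N₂, hN₂⟩ := H_le' (κ / 2) (by positivity)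
  refine ⟨max (max N₁ N₂) 3, le_max_right _ _, fun N hN c => ?_⟩
  have hl := one_le_log ((le_max_right _ _).trans hN)
  have hg := hN₁ N (((le_max_left _ _).trans (le_max_left _ _)).trans hN)
  have hH := hN₂ N (((le_max_right _ _).trans (le_max_left _ _)).trans hN)
  have hL0 : (0 : ℝ) < L := by exact_mod_cast hL
  have e0 : (fun n => ‖∑ h ∈ range L, ((f (n + h) : ℝ) : ℂ) * c h‖ ^ 2) =
      fun n => ∑ h ∈ range L, ∑ h' ∈ range L,
        (c h * (starRingEnd ℂ) (c h')).re * ((f (n + h) : ℝ) * f (n + h')) := by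
    funext n
    exact sq_expand L (fun h => (f (n + h) : ℝ)) c
  rw [e0, S_sum]
  have hnn : ∀ h h', ‖c h * (starRingEnd ℂ) (c h')‖ = ‖c h‖ * ‖c h'‖ := by
    intro h h'
    rw [norm_mul, RCLike.norm_conj]
  have hin : ∀ h h', |(c h * (starRingEnd ℂ) (c h')).re| ≤ (‖c h‖ ^ 2 + ‖c h'‖ ^ 2) / 2 := by
    intro h h'
    refine (Complex.abs_re_le_norm _).trans ?_
    rw [hnn]
    nlinarith [sq_nonneg (‖c h‖ - ‖c h'‖)]
  have hdg : ∀ h, |(c h * (starRingEnd ℂ) (c h)).re| ≤ ‖c h‖ ^ 2 := by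
    intro h
    have := hin h h
    linarith
  have hlog0 : (0 : ℝ) ≤ Real.log N := by linarith
  have hbound : ∀ h ∈ range L, S (fun n => ∑ h' ∈ range L,
        (c h * (starRingEnd ℂ) (c h')).re * ((f (n + h) : ℝ) * f (n + h'))) N ≤
      ‖c h‖ ^ 2 * H N + ∑ h' ∈ range L, (‖c h‖ ^ 2 + ‖c h'‖ ^ 2) / 2 *
        (κ / 2 / L * Real.log N) := by
    intro h hh
    rw [S_sum]
    have h1 : ∀ h' ∈ range L,
        S (fun n => (c h * (starRingEnd ℂ) (c h')).re * ((f (n + h) : ℝ) * f (n + h'))) N ≤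
        (if h' = h then ‖c h‖ ^ 2 * H N else 0) +
          (‖c h‖ ^ 2 + ‖c h'‖ ^ 2) / 2 * (κ / 2 / L * Real.log N) := by
      intro h' hh'
      rw [S_cmul]
      by_cases he : h' = h
      · rw [if_pos he, he]
        have h2 : |S (fun n => (f (n + h) : ℝ) * f (n + h)) N| ≤ 1 * H N :=
          Pool.Agent.TH833.BL.S_bound (fun n => by
            rw [abs_mul]
            have h1 : |(f (n + h) : ℝ)| ≤ 1 := by exact_mod_cast hf (n + h)
            calc _ ≤ 1 * 1 := mul_le_mul h1 h1 (abs_nonneg _) zero_le_one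
              _ = 1 := one_mul 1) N
        rw [one_mul] at h2
        have h3 : (c h * (starRingEnd ℂ) (c h)).re * S (fun n => (f (n + h) : ℝ) * f (n + h)) N ≤
            ‖c h‖ ^ 2 * H N := by
          refine (le_abs_self _).trans ?_
          rw [abs_mul]
          exact mul_le_mul (hdg h) h2 (abs_nonneg _) (by positivity)
        have h4 : 0 ≤ (‖c h‖ ^ 2 + ‖c h‖ ^ 2) / 2 * (κ / 2 / L * Real.log N) := by positivity
        linarith
      · rw [if_neg he, zero_add]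
        refine (le_abs_self _).trans ?_
        rw [abs_mul]
        refine mul_le_mul (hin h h') ?_ (abs_nonneg _) (by positivity)
        exact hg h (mem_range.1 hh) h' (mem_range.1 hh') (fun e => he e.symm)
    refine (sum_le_sum h1).trans (le_of_eq ?_)
    rw [sum_add_distrib, sum_ite_eq' (range L) h, if_pos hh]
  refine (sum_le_sum hbound).trans ?_
  set T := ∑ h ∈ range L, ‖c h‖ ^ 2 with hT'
  have hT0 : 0 ≤ T := sum_nonneg fun _ _ => by positivity
  have e1 : ∑ h ∈ range L, ∑ h' ∈ range L, (‖c h‖ ^ 2 + ‖c h'‖ ^ 2) / 2 *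
      (κ / 2 / (L : ℝ) * Real.log N) = κ / 2 * T * Real.log N := by
    have e2 : ∀ h ∈ range L, ∑ h' ∈ range L, (‖c h‖ ^ 2 + ‖c h'‖ ^ 2) / 2 *
        (κ / 2 / (L : ℝ) * Real.log N) = (L * ‖c h‖ ^ 2 + T) / 2 * (κ / 2 / (L : ℝ) * Real.log N) := by
      intro h _
      rw [← sum_mul, ← sum_div, sum_add_distrib, sum_const, card_range, nsmul_eq_mul]
    rw [sum_congr rfl e2, ← sum_mul, ← sum_div, sum_add_distrib, ← mul_sum, sum_const, card_range,
      nsmul_eq_mul, ← hT']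
    field_simp
    ring
  rw [sum_add_distrib, ← sum_mul, e1]
  have h2 : T * H N ≤ T * ((1 + κ / 2) * Real.log N) := mul_le_mul_of_nonneg_left hH hT0
  calc T * H N + κ / 2 * T * Real.log N ≤
      T * ((1 + κ / 2) * Real.log N) + κ / 2 * T * Real.log N := by linarith
    _ = _ := by ring

end Pool.Agent.X84.Sp
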