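import Pool.Agent.TH327.Thin.Shift

/-!
# Localisation of bounded sequences with spectrum in a given set, with flat windows
-/

set_option autoImplicit false

open Filter Topology MeasureTheory Finset

namespace Pool.Agent.X84.Sp

open Pool.Agent.TH327.Thin

/-- the window -/
noncomputable def wd (δ : ℝ) (A H : ℕ) (n : ℤ) : ℝ :=
  ∑ m ∈ Ico (-(A : ℤ)) ((H : ℤ) + A), δ * W δ (n - m)

variable {δ : ℝ}

theorem wd_nonneg (h0 : 0 < δ) (A H : ℕ) (n : ℤ) : 0 ≤ wd δ A H n :=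
  sum_nonneg fun m _ => mul_nonneg h0.le (W_nonneg δ h0 _)

theorem summable_shift (h0 : 0 < δ) (m : ℤ) : Summable fun n : ℤ => δ * W δ (n - m) :=
  ((Equiv.subRight m).summable_iff.2 ((summable_W δ h0).mul_left δ)).congr fun _ => rfl

theorem tsum_shift (h0 : 0 < δ) (h1 : δ ≤ 1 / 2) (m : ℤ) : ∑' n : ℤ, δ * W δ (n - m) = 1 := by
  have h2 := (Equiv.subRight m).tsum_eq (fun n : ℤ => δ * W δ n)
  have h3 : ∑' n : ℤ, δ * W δ n = 1 := by
    rw [tsum_mul_left, tsum_W δ h0 h1]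
    field_simp
  rw [← h3, ← h2]
  rfl

theorem summable_wd (h0 : 0 < δ) (A H : ℕ) : Summable (wd δ A H) :=
  summable_sum fun m _ => summable_shift h0 m

theorem tsum_wd (h0 : 0 < δ) (h1 : δ ≤ 1 / 2) (A H : ℕ) : ∑' n, wd δ A H n = H + 2 * A := by
  unfold wd
  rw [Summable.tsum_finsetSum fun m _ => summable_shift h0 m]
  simp only [tsum_shift h0 h1]
  rw [sum_const, Int.card_Ico, nsmul_eq_mul, mul_one]
  have : ((H : ℤ) + A - -(A : ℤ)).toNat = H + 2 * A := by omega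
  rw [this]
  push_cast
  ring

/-- the window as a sum of values of the kernel -/
theorem wd_eq (A H : ℕ) (n : ℤ) :
    wd δ A H n = ∑ k ∈ (Ico (-(A : ℤ)) ((H : ℤ) + A)).image (fun m => n - m), δ * W δ k := by
  rw [sum_image (fun x _ y _ h => by simpa using h)]
  rfl

theorem wd_le (h0 : 0 < δ) (h1 : δ ≤ 1 / 2) (A H : ℕ) (n : ℤ) : wd δ A H n ≤ 1 := by
  rw [wd_eq]
  have h2 := ((summable_W δ h0).mul_left δ).sum_le_tsum
    ((Ico (-(A : ℤ)) ((H : ℤ) + A)).image (fun m => n - m))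
    (fun k _ => mul_nonneg h0.le (W_nonneg δ h0 k))
  refine h2.trans (le_of_eq ?_)
  rw [tsum_mul_left, tsum_W δ h0 h1]
  field_simp

theorem exists_tail (h0 : 0 < δ) (h1 : δ ≤ 1 / 2) (ε : ℝ) (hε : 0 < ε) :
    ∃ A : ℕ, ∀ H : ℕ, ∀ n : ℤ, 0 ≤ n → n < H → 1 - wd δ A H n ≤ ε := by
  have hs : HasSum (fun k : ℤ => δ * W δ k) 1 := by
    have h2 := ((summable_W δ h0).mul_left δ).hasSum
    rw [tsum_mul_left, tsum_W δ h0 h1, mul_one_div_cancel h0.ne'] at h2
    exact h2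
  obtain ⟨s, hs⟩ := (Metric.tendsto_atTop.1 hs) ε hε
  obtain ⟨A, hA⟩ : ∃ A : ℕ, s ⊆ Icc (-(A : ℤ)) A := by
    refine ⟨s.sup fun k => k.natAbs, fun k hk => ?_⟩
    have := Finset.le_sup (f := fun k : ℤ => k.natAbs) hk
    rw [mem_Icc]
    omega
  refine ⟨A, fun H n hn hnH => ?_⟩
  have h3 : Icc (-(A : ℤ)) A ⊆ (Ico (-(A : ℤ)) ((H : ℤ) + A)).image (fun m => n - m) := by
    intro k hk
    rw [mem_Icc] at hk
    rw [mem_image]
    refine ⟨n - k, ?_, by ring⟩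
    rw [mem_Ico]
    omega
  have h4 := hs _ (hA.trans h3)
  rw [← wd_eq, Real.dist_eq, abs_lt] at h4
  linarith [h4.1]

/-- the transform of the windowed sequence -/
noncomputable def GG (a : ℤ → ℂ) (δ : ℝ) (A H : ℕ) (η : UnitAddCircle) : ℂ :=
  ∑ m ∈ Ico (-(A : ℤ)) ((H : ℤ) + A), (δ : ℂ) * (fourier (-m) η * FT (fun k => a (k + m)) δ η)

variable {a : ℤ → ℂ} {K : Set UnitAddCircle}

theorem GG_cont (ha : ∀ n, ‖a n‖ ≤ 1) (h0 : 0 < δ) (A H : ℕ) : Continuous (GG a δ A H) := by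
  unfold GG
  refine continuous_finsetSum _ fun m _ => ?_
  exact continuous_const.mul ((map_continuous (fourier (-m))).mul
    (FT_cont (fun n => ha (n + m)) h0))

theorem GG_zero (h : SpecIn K a) (h0 : 0 < δ) (h1 : δ ≤ 1 / 2) (A H : ℕ) {η : UnitAddCircle}
    (hη : ∀ ζ ∈ K, δ < ‖ζ - η‖) : GG a δ A H η = 0 := by
  unfold GG
  refine sum_eq_zero fun m _ => ?_
  rw [FT_zero (specIn_shift h m) h0 h1 hη, mul_zero, mul_zero]

theorem integrable_cont {g : UnitAddCircle → ℂ} (hg : Continuous g) : Integrable g volume :=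
  Continuous.integrable_of_hasCompactSupport hg (HasCompactSupport.of_compactSpace _)

theorem GG_coeff (ha : ∀ n, ‖a n‖ ≤ 1) (h0 : 0 < δ) (A H : ℕ) (n : ℤ) :
    ∫ η : UnitAddCircle, (fourier n η : ℂ) * GG a δ A H η = (wd δ A H n : ℂ) * a n := by
  have e : ∀ η : UnitAddCircle, (fourier n η : ℂ) * GG a δ A H η =
      ∑ m ∈ Ico (-(A : ℤ)) ((H : ℤ) + A), (δ : ℂ) * ((fourier (n - m) η : ℂ) •
        FT (fun k => a (k + m)) δ η) := by
    intro η
    unfold GG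
    rw [mul_sum]
    refine sum_congr rfl fun m _ => ?_
    rw [sub_eq_add_neg, fourier_add, smul_eq_mul]
    ring
  simp only [e]
  have hi : ∀ m ∈ Ico (-(A : ℤ)) ((H : ℤ) + A), Integrable (fun η : UnitAddCircle =>
      (δ : ℂ) * ((fourier (n - m) η : ℂ) • FT (fun k => a (k + m)) δ η)) volume := fun m _ =>
    integrable_cont (continuous_const.mul
    ((map_continuous (fourier (n - m))).smul (FT_cont (fun n => ha (n + m)) h0)))
  rw [integral_finsetSum _ hi]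
  unfold wd
  push_cast
  rw [sum_mul]
  refine sum_congr rfl fun m _ => ?_
  rw [integral_const_mul, FT_coeff (fun n => ha (n + m)) h0 (n - m)]
  rw [smul_eq_mul, sub_add_cancel]
  ring

theorem GG_sq (ha : ∀ n, ‖a n‖ ≤ 1) (h0 : 0 < δ) (h1 : δ ≤ 1 / 2) (A H : ℕ) :
    ∫ η : UnitAddCircle, ‖GG a δ A H η‖ ^ 2 ≤ H + 2 * A := by
  have hc := GG_cont ha h0 A H
  obtain ⟨G, hG⟩ : ∃ G : C(UnitAddCircle, ℂ), G = ⟨GG a δ A H, hc⟩ := ⟨_, rfl⟩
  have h2 := tsum_sq_fourierCoeff (ContinuousMap.toLp (E := ℂ) 2 AddCircle.haarAddCircle ℂ G)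
  have hv : (volume : Measure UnitAddCircle) = AddCircle.haarAddCircle := by
    rw [AddCircle.volume_eq_smul_haarAddCircle]
    simp
  have hae := ContinuousMap.coeFn_toLp (p := 2) (𝕜 := ℂ) AddCircle.haarAddCircle G
  have h3 : ∫ t : UnitAddCircle, ‖(ContinuousMap.toLp (E := ℂ) 2 AddCircle.haarAddCircle ℂ G) t‖ ^ 2
      ∂AddCircle.haarAddCircle = ∫ η : UnitAddCircle, ‖GG a δ A H η‖ ^ 2 := by
    rw [hv]
    refine integral_congr_ae ?_
    filter_upwards [hae] with t ht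
    rw [ht, hG]
    rfl
  have h4 : ∀ n : ℤ, fourierCoeff (ContinuousMap.toLp (E := ℂ) 2 AddCircle.haarAddCircle ℂ G) n =
      (wd δ A H (-n) : ℂ) * a (-n) := by
    intro n
    rw [← GG_coeff ha h0 A H (-n), hv]
    unfold fourierCoeff
    refine integral_congr_ae ?_
    filter_upwards [hae] with t ht
    rw [ht, hG]
    rfl
  rw [h3] at h2
  rw [← h2]
  have h5 : ∀ n : ℤ, ‖fourierCoeff (ContinuousMap.toLp (E := ℂ) 2 AddCircle.haarAddCircle ℂ G) n‖ ^ 2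
      ≤ wd δ A H (-n) := by
    intro n
    rw [h4, norm_mul, Complex.norm_real, Real.norm_eq_abs, abs_of_nonneg (wd_nonneg h0 A H _)]
    have h6 := wd_nonneg h0 A H (-n)
    have h7 := wd_le h0 h1 A H (-n)
    have h8 := ha (-n)
    have h9 := norm_nonneg (a (-n))
    have h10 : wd δ A H (-n) * ‖a (-n)‖ ≤ wd δ A H (-n) := by
      calc _ ≤ wd δ A H (-n) * 1 := mul_le_mul_of_nonneg_left h8 h6
        _ = _ := mul_one _
    have h11 : 0 ≤ wd δ A H (-n) * ‖a (-n)‖ := mul_nonneg h6 h9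
    nlinarith
  have h6 : Summable fun n : ℤ => wd δ A H (-n) :=
    ((Equiv.neg ℤ).summable_iff.2 (summable_wd h0 A H)).congr fun _ => rfl
  have h7 : ∑' n : ℤ, wd δ A H (-n) = H + 2 * A := by
    rw [← tsum_wd h0 h1 A H]
    exact (Equiv.neg ℤ).tsum_eq (wd δ A H)
  rw [← h7]
  exact Summable.tsum_le_tsum h5 (Summable.of_nonneg_of_le (fun n => by positivity) h5 h6) h6

end Pool.Agent.X84.Sp
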