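import Pool.Agent.X84.Sp.Wnd

/-!
# Functions with spectrum in a closed set in a dynamical system
-/

set_option autoImplicit false

open Filter Topology MeasureTheory Finset

namespace Pool.Agent.X84.Sp

open Pool.Agent.TH327.Thin
open Pool.Agent.TH112.BL
open Pool.Agent.Y326 (TwoPoint S_mono S_const S_cmul S_sum S_shift S_cs ex norm_ex ex_add tm wn LW
  lw_of)
open Pool.Agent.TH833.BL (S H H_le le_H one_le_log S_add)

theorem ex_fourier (h : ℕ) (θ : ℝ) : ex (h * θ) = fourier (h : ℤ) (θ : UnitAddCircle) := by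
  rw [fourier_coe]
  unfold ex
  congr 1
  push_cast
  ring

section sys

variable {X : Type*} [TopologicalSpace X] [CompactSpace X] {f : ℕ → ℤ} {K : Set UnitAddCircle}

/-- The orbit sequences of `g` extend to two-sided sequences, bounded by one, with spectrum
in `K`. -/
def USpec (T : X → X) (K : Set UnitAddCircle) (g : C(X, ℂ)) : Prop :=
  ∀ x, ∃ a : ℤ → ℂ, (∀ n, ‖a n‖ ≤ 1) ∧ (∀ n : ℕ, 1 ≤ n → a n = g (T^[n] x)) ∧ SpecIn K a

theorem sys_windows (hf : ∀ n, |f n| ≤ 1) (hT : TwoPoint f) (hK : IsClosed K) {T : X → X}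
    {g : C(X, ℂ)} (hg : USpec T K g) (ε : ℝ) (hε : 0 < ε) :
    ∃ L₀ : ℕ, 1 ≤ L₀ ∧ ∀ L : ℕ, L₀ ≤ L → ∃ N₀ : ℕ, 3 ≤ N₀ ∧ ∀ N : ℕ, N₀ ≤ N →
      ∀ (θ : UnitAddCircle) (x : ℕ → X),
      S (fun n => ‖∑ h ∈ range L, (((f (n + h) : ℝ) : ℂ) * fourier (h : ℤ) θ) *
        g (T^[n + h] (x n))‖ ^ 2) N ≤ (volume.real K + ε) * L ^ 2 * Real.log N := by
  obtain ⟨L₀, h1, h2⟩ := windows hf hT hK ε hε
  refine ⟨L₀, h1, fun L hL => ?_⟩
  obtain ⟨N₀, h3, h4⟩ := h2 L hL
  refine ⟨N₀, h3, fun N hN θ x => ?_⟩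
  choose a ha1 ha2 ha3 using hg
  obtain ⟨b, hb⟩ : ∃ b : ℕ → ℤ → ℂ, b = fun n k => a (x n) (k + n) := ⟨_, rfl⟩
  have hbX : ∀ n, b n ∈ XK K := by
    intro n
    rw [hb]
    exact ⟨fun k => ha1 _ _, specIn_shift (ha3 (x n)) n⟩
  have h5 := h4 N hN θ b hbX
  have h6 : S (fun n => ‖∑ h ∈ range L, (((f (n + h) : ℝ) : ℂ) * fourier (h : ℤ) θ) *
      g (T^[n + h] (x n))‖ ^ 2) N = S (fun n => ‖∑ h ∈ range L,
        (((f (n + h) : ℝ) : ℂ) * fourier (h : ℤ) θ) * b n h‖ ^ 2) N := by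
    unfold S
    refine sum_congr rfl fun n hn => ?_
    rw [mem_Icc] at hn
    have h7 : ∀ h : ℕ, g (T^[n + h] (x n)) = b n h := by
      intro h
      rw [← ha2 (x n) (n + h) (by omega), hb]
      change a (x n) _ = a (x n) _
      congr 1
      push_cast
      ring
    simp only [h7]
  rw [h6]
  exact h5

/-- logarithmic means from windows -/
theorem log_of_windows (t : ℕ → ℂ) (ht : ∀ n, ‖t n‖ ≤ 1) (L N : ℕ) :
    (L : ℝ) * ‖∑ n ∈ Icc 1 N, (1 / (n : ℂ)) * t n‖ ≤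
      S (fun n => ‖∑ k ∈ range L, t (n + k)‖) N + 3 * L * L := by
  obtain ⟨u, hu1, hu2⟩ : ∃ u : ℂ, ‖u‖ ≤ 1 ∧ u * (∑ n ∈ Icc 1 N, (1 / (n : ℂ)) * t n) =
      (‖∑ n ∈ Icc 1 N, (1 / (n : ℂ)) * t n‖ : ℂ) := by
    set z := ∑ n ∈ Icc 1 N, (1 / (n : ℂ)) * t n
    by_cases hz : z = 0
    · exact ⟨0, by simp, by rw [hz]; simp⟩
    · have hz' : (‖z‖ : ℂ) ≠ 0 := by exact_mod_cast norm_ne_zero_iff.2 hz
      refine ⟨(starRingEnd ℂ) z / ‖z‖, ?_, ?_⟩
      · rw [norm_div, RCLike.norm_conj, Complex.norm_real, norm_norm,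
          div_self (norm_ne_zero_iff.2 hz)]
      · rw [div_mul_eq_mul_div, mul_comm ((starRingEnd ℂ) z), Complex.mul_conj,
          Complex.normSq_eq_norm_sq]
        push_cast
        field_simp
  set φ : ℕ → ℝ := fun n => (u * t n).re with hφ
  have hφb : ∀ n, |φ n| ≤ 1 := by
    intro n
    refine (Complex.abs_re_le_norm _).trans ?_
    rw [norm_mul]
    calc _ ≤ 1 * 1 := mul_le_mul hu1 (ht n) (norm_nonneg _) zero_le_one
      _ = 1 := one_mul 1
  have h2 : ‖∑ n ∈ Icc 1 N, (1 / (n : ℂ)) * t n‖ = S φ N := by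
    have h4 := congrArg Complex.re hu2
    rw [Complex.ofReal_re] at h4
    rw [← h4, mul_sum, Complex.re_sum]
    unfold S
    refine sum_congr rfl fun n _ => ?_
    have e : u * (1 / (n : ℂ) * t n) = ((1 / (n : ℝ) : ℝ) : ℂ) * (u * t n) := by
      push_cast; ring
    rw [e, Complex.re_ofReal_mul]
  have h3 : ∀ k ∈ range L, S φ N ≤ S (fun n => φ (n + k)) N + 3 * 1 * L := by
    intro k hk
    have h4 := (abs_le.1 (S_shift hφb k N)).1
    have h5 : 3 * 1 * (k : ℝ) ≤ 3 * 1 * L := by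
      apply mul_le_mul_of_nonneg_left _ (by positivity)
      exact_mod_cast (mem_range.1 hk).le
    linarith
  have h4 := sum_le_sum h3
  rw [sum_const, card_range, nsmul_eq_mul, sum_add_distrib, sum_const, card_range, nsmul_eq_mul,
    ← S_sum] at h4
  have h5 : S (fun n => ∑ k ∈ range L, φ (n + k)) N ≤ S (fun n => ‖∑ k ∈ range L, t (n + k)‖) N := by
    refine S_mono (fun n => ?_) N
    have e : ∑ k ∈ range L, φ (n + k) = (u * ∑ k ∈ range L, t (n + k)).re := by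
      rw [mul_sum, Complex.re_sum]
    rw [e]
    refine (Complex.re_le_norm _).trans ?_
    rw [norm_mul]
    calc _ ≤ 1 * ‖∑ k ∈ range L, t (n + k)‖ := mul_le_mul_of_nonneg_right hu1 (norm_nonneg _)
      _ = _ := one_mul _
  rw [h2]
  linarith

/-- **Logarithmic means of functions with spectrum in a closed set.** -/
theorem sys_log (hf : ∀ n, |f n| ≤ 1) (hT : TwoPoint f) (hK : IsClosed K) {T : X → X}
    {g : C(X, ℂ)} (hg : USpec T K g) (ε : ℝ) (hε : 0 < ε) :
    ∃ N₀ : ℕ, ∀ N : ℕ, N₀ ≤ N → ∀ (θ : ℝ) (x : X),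
      ‖∑ n ∈ Icc 1 N, (1 / (n : ℂ)) * ((((f n : ℝ) : ℂ) * ex (n * θ)) * g (T^[n] x))‖ ≤
        (Real.sqrt (volume.real K) + ε) * Real.log N := by
  obtain ⟨v, hv⟩ : ∃ v, v = volume.real K := ⟨_, rfl⟩
  have hv0 : 0 ≤ v := hv ▸ measureReal_nonneg
  have hv1 : v ≤ 1 := by
    have h := measureReal_mono (μ := (volume : Measure UnitAddCircle)) (Set.subset_univ K)
    rw [vol_univ] at h
    rw [hv]
    exact h
  wlog hε1 : ε ≤ 1 generalizing ε with hw
  · obtain ⟨N₀, h1⟩ := hw 1 one_pos le_rfl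
    refine ⟨max N₀ 3, fun N hN θ x => (h1 N ((le_max_left _ _).trans hN) θ x).trans ?_⟩
    have hl := one_le_log ((le_max_right _ _).trans hN)
    push Not at hε1
    apply mul_le_mul_of_nonneg_right _ (by linarith)
    linarith
  obtain ⟨κ, hκ⟩ : ∃ κ, κ = ε ^ 2 / 12 := ⟨_, rfl⟩
  have hκ0 : 0 < κ := by rw [hκ]; positivity
  have hκ1 : κ ≤ 1 := by rw [hκ]; nlinarith
  obtain ⟨L, hL1, h2⟩ := sys_windows hf hT hK hg κ hκ0
  obtain ⟨N₀, h3, h4⟩ := h2 L le_rfl
  obtain ⟨N₁, hN₁⟩ := H_le' κ hκ0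
  have hlog : Tendsto (fun N : ℕ => ε / 2 * Real.log (N : ℝ)) atTop atTop :=
    (Pool.Agent.TH833.BL.log_tendsto).const_mul_atTop (by positivity)
  obtain ⟨N₂, hN₂⟩ := eventually_atTop.1 (hlog.eventually_ge_atTop (3 * (L : ℝ)))
  refine ⟨max N₀ (max N₁ N₂), fun N hN θ x => ?_⟩
  have hl := one_le_log (h3.trans ((le_max_left _ _).trans hN))
  have hH := hN₁ N ((le_max_left _ _).trans ((le_max_right _ _).trans hN))
  have h3L := hN₂ N ((le_max_right _ _).trans ((le_max_right _ _).trans hN))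
  have h5 := h4 N ((le_max_left _ _).trans hN) (θ : UnitAddCircle) (fun _ => x)
  rw [← hv] at h5 ⊢
  have hL0 : (0 : ℝ) < L := by exact_mod_cast hL1
  obtain ⟨t, ht⟩ : ∃ t : ℕ → ℂ, t = fun n => if n = 0 then 0 else
    (((f n : ℝ) : ℂ) * ex (n * θ)) * g (T^[n] x) := ⟨_, rfl⟩
  have htb : ∀ n, ‖t n‖ ≤ 1 := by
    intro n
    rw [ht]
    by_cases hn : n = 0
    · simp [hn]
    · obtain ⟨a, ha1, ha2, -⟩ := hg x
      simp only [hn, if_false]
      rw [← ha2 n (by omega), norm_mul, norm_mul, norm_ex, mul_one, Complex.norm_real,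
        Real.norm_eq_abs]
      have h6 : |(f n : ℝ)| ≤ 1 := by exact_mod_cast hf n
      calc _ ≤ 1 * 1 := mul_le_mul h6 (ha1 n) (norm_nonneg _) zero_le_one
        _ = 1 := one_mul 1
  have e1 : ∑ n ∈ Icc 1 N, (1 / (n : ℂ)) * ((((f n : ℝ) : ℂ) * ex (n * θ)) * g (T^[n] x)) =
      ∑ n ∈ Icc 1 N, (1 / (n : ℂ)) * t n := by
    refine sum_congr rfl fun n hn => ?_
    rw [mem_Icc] at hn
    rw [ht]
    simp only [show n ≠ 0 by omega, if_false]
  rw [e1]
  have h6 := log_of_windows t htb L N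
  have e2 : S (fun n => ‖∑ k ∈ range L, t (n + k)‖ ^ 2) N =
      S (fun n => ‖∑ h ∈ range L, (((f (n + h) : ℝ) : ℂ) * fourier (h : ℤ) (θ : UnitAddCircle)) *
        g (T^[n + h] x)‖ ^ 2) N := by
    unfold S
    refine sum_congr rfl fun n hn => ?_
    rw [mem_Icc] at hn
    have e3 : ∑ k ∈ range L, t (n + k) = ex (n * θ) * ∑ h ∈ range L,
        (((f (n + h) : ℝ) : ℂ) * fourier (h : ℤ) (θ : UnitAddCircle)) * g (T^[n + h] x) := by
      rw [mul_sum]
      refine sum_congr rfl fun k _ => ?_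
      rw [ht]
      simp only [show n + k ≠ 0 by omega, if_false]
      rw [← ex_fourier]
      have : ex (((n + k : ℕ) : ℝ) * θ) = ex (n * θ) * ex (k * θ) := by
        rw [← ex_add]
        congr 1
        push_cast
        ring
      rw [this]
      ring
    have e4 : ‖∑ k ∈ range L, t (n + k)‖ = ‖∑ h ∈ range L,
        (((f (n + h) : ℝ) : ℂ) * fourier (h : ℤ) (θ : UnitAddCircle)) * g (T^[n + h] x)‖ := by
      rw [e3, norm_mul, norm_ex, one_mul]
    simp only [e4]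
  rw [← e2] at h5
  have h7 := S_cs (fun n => ‖∑ k ∈ range L, t (n + k)‖) N
  have h8 : S (fun n => ‖∑ k ∈ range L, t (n + k)‖) N ^ 2 ≤
      ((Real.sqrt v + ε / 2) * L * Real.log N) ^ 2 := by
    refine h7.trans ?_
    have h9 : 0 ≤ S (fun n => ‖∑ k ∈ range L, t (n + k)‖ ^ 2) N :=
      sum_nonneg fun n _ => by positivity
    calc H N * S (fun n => ‖∑ k ∈ range L, t (n + k)‖ ^ 2) N ≤
        ((1 + κ) * Real.log N) * ((v + κ) * L ^ 2 * Real.log N) :=
          mul_le_mul hH h5 h9 (by positivity)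
      _ = ((1 + κ) * (v + κ)) * (L * Real.log N) ^ 2 := by ring
      _ ≤ (Real.sqrt v + ε / 2) ^ 2 * (L * Real.log N) ^ 2 := by
          apply mul_le_mul_of_nonneg_right _ (by positivity)
          have h10 := Real.sq_sqrt hv0
          have h11 := Real.sqrt_nonneg v
          have h12 : (1 + κ) * (v + κ) ≤ v + 3 * κ := by nlinarith
          have h13 : 3 * κ = (ε / 2) ^ 2 := by rw [hκ]; ring
          nlinarith
      _ = _ := by ring
  have h9 : S (fun n => ‖∑ k ∈ range L, t (n + k)‖) N ≤ (Real.sqrt v + ε / 2) * L * Real.log N := by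
    apply le_of_sq_le_sq h8
    have := Real.sqrt_nonneg v
    positivity
  have h10 : (L : ℝ) * ‖∑ n ∈ Icc 1 N, (1 / (n : ℂ)) * t n‖ ≤
      L * ((Real.sqrt v + ε) * Real.log N) := by
    have h11 : 3 * (L : ℝ) * L ≤ L * (ε / 2 * Real.log N) := by
      have := mul_le_mul_of_nonneg_left h3L hL0.le
      linarith
    linarith
  exact le_of_mul_le_mul_left h10 hL0

/-- the orbit of a continuous function -/
noncomputable def orb {T : X → X} (hTc : Continuous T) (g : C(X, ℂ)) (n : ℕ) : C(X, ℂ) :=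
  ⟨fun x => g (T^[n] x), g.continuous.comp (hTc.iterate n)⟩

theorem orb_norm {T : X → X} (hTc : Continuous T) (g : C(X, ℂ)) (n : ℕ) :
    ‖orb hTc g n‖ ≤ ‖g‖ :=
  (ContinuousMap.norm_le _ (norm_nonneg _)).2 fun x => g.norm_coe_le_norm _

/-- **Functions with spectrum in a closed null set.** -/
theorem lw_null (hf : ∀ n, |f n| ≤ 1) (hT : TwoPoint f) (hK : IsClosed K)
    (hK0 : volume.real K = 0) {T : X → X} (hTc : Continuous T) {g : C(X, ℂ)}
    (hg : USpec T K g) : LW f (orb hTc g) := by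
  refine lw_of hf (orb_norm hTc g) fun η hη => ?_
  obtain ⟨L, hL1, h2⟩ := sys_windows hf hT hK hg (η ^ 2 / 2) (by positivity)
  obtain ⟨N₀, h3, h4⟩ := h2 L le_rfl
  refine ⟨L, hL1, N₀, fun N hN θ => ?_⟩
  have hl := one_le_log (h3.trans hN)
  have hL0 : (0 : ℝ) < L := by exact_mod_cast hL1
  rcases isEmpty_or_nonempty X with hX | hX
  · have e : wn f (orb hTc g) θ L = fun _ => 0 := by
      funext n
      unfold wn
      rw [norm_eq_zero]
      ext x
      exact hX.elim x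
    rw [e, S_const, zero_mul]
    positivity
  · have hx : ∀ n, ∃ x : X, wn f (orb hTc g) θ L n ≤ ‖(∑ h ∈ range L, tm f (orb hTc g) θ (n + h)) x‖ := by
      intro n
      obtain ⟨x, -, hx⟩ := isCompact_univ.exists_isMaxOn Set.univ_nonempty
        ((∑ h ∈ range L, tm f (orb hTc g) θ (n + h)).continuous.norm.continuousOn)
      refine ⟨x, ?_⟩
      unfold wn
      rw [ContinuousMap.norm_le _ (norm_nonneg _)]
      exact fun y => hx (Set.mem_univ y)
    choose x hx using hx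
    have h5 := h4 N hN (θ : UnitAddCircle) x
    rw [hK0, zero_add] at h5
    have e : ∀ n, ‖(∑ h ∈ range L, tm f (orb hTc g) θ (n + h)) (x n)‖ =
        ‖∑ h ∈ range L, (((f (n + h) : ℝ) : ℂ) * fourier (h : ℤ) (θ : UnitAddCircle)) *
        g (T^[n + h] (x n))‖ := by
      intro n
      have e3 : (∑ h ∈ range L, tm f (orb hTc g) θ (n + h)) (x n) = ex (n * θ) * ∑ h ∈ range L,
        (((f (n + h) : ℝ) : ℂ) * fourier (h : ℤ) (θ : UnitAddCircle)) * g (T^[n + h] (x n)) := by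
        rw [ContinuousMap.sum_apply, mul_sum]
        refine sum_congr rfl fun k _ => ?_
        unfold tm
        rw [← ex_fourier]
        have : ex (((n + k : ℕ) : ℝ) * θ) = ex (n * θ) * ex (k * θ) := by
          rw [← ex_add]
          congr 1
          push_cast
          ring
        rw [this]
        change (((f (n + k) : ℤ) : ℂ) * (ex (n * θ) * ex (k * θ))) * g (T^[n + k] (x n)) = _
        push_cast
        ring
      rw [e3, norm_mul, norm_ex, one_mul]
    have h6 : S (fun n => wn f (orb hTc g) θ L n ^ 2) N ≤ η ^ 2 / 2 * L ^ 2 * Real.log N := by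
      refine le_trans (S_mono (fun n => ?_) N) h5
      rw [← e n]
      exact pow_le_pow_left₀ (norm_nonneg _) (hx n) 2
    have h7 := S_cs (wn f (orb hTc g) θ L) N
    have h8 : S (wn f (orb hTc g) θ L) N ^ 2 ≤ (η * L * Real.log N) ^ 2 := by
      refine h7.trans ?_
      have hH : H N ≤ 2 * Real.log N := by linarith [H_le N]
      calc H N * S (fun n => wn f (orb hTc g) θ L n ^ 2) N ≤
          (2 * Real.log N) * (η ^ 2 / 2 * L ^ 2 * Real.log N) :=
            mul_le_mul hH h6 (sum_nonneg fun n _ => by positivity) (by positivity)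
        _ = _ := by ring
    exact le_of_sq_le_sq h8 (by positivity)

end sys

end Pool.Agent.X84.Sp
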