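import Pool.Agent.X84.Sp.Ker
import Pool.Agent.X84.Sp.Gram

/-!
# Windows of bounded sequences with spectrum in a closed set
-/

set_option autoImplicit false

open Filter Topology MeasureTheory Finset

namespace Pool.Agent.X84.Sp

open Pool.Agent.TH327.Thin
open Pool.Agent.TH112.BL
open Pool.Agent.Y326 (TwoPoint S_mono S_const S_cmul)
open Pool.Agent.TH833.BL (S H H_le le_H one_le_log S_add)

theorem integrableOn_cont {g : UnitAddCircle → ℝ} (hg : Continuous g) (U : Set UnitAddCircle) :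
    IntegrableOn g U volume :=
  (Continuous.integrable_of_hasCompactSupport hg (HasCompactSupport.of_compactSpace _)).integrableOn

/-- Cauchy-Schwarz -/
theorem cs (U : Set UnitAddCircle) {g k : UnitAddCircle → ℂ} (hg : Continuous g)
    (hk : Continuous k) :
    ‖∫ η in U, g η * k η‖ ^ 2 ≤ (∫ η in U, ‖g η‖ ^ 2) * ∫ η in U, ‖k η‖ ^ 2 := by
  have h1 : ‖∫ η in U, g η * k η‖ ≤ ∫ η in U, ‖g η‖ * ‖k η‖ := by
    refine (norm_integral_le_integral_norm _).trans (le_of_eq ?_)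
    exact integral_congr_ae (Filter.Eventually.of_forall fun η => norm_mul _ _)
  have i1 : Integrable (fun η => ‖g η‖ ^ 2) (volume.restrict U) :=
    integrableOn_cont (hg.norm.pow 2) U
  have i2 : Integrable (fun η => ‖k η‖ ^ 2) (volume.restrict U) :=
    integrableOn_cont (hk.norm.pow 2) U
  have i3 : Integrable (fun η => ‖g η‖ * ‖k η‖) (volume.restrict U) :=
    integrableOn_cont (hg.norm.mul hk.norm) U
  have h2 : ∀ x : ℝ, 0 ≤ (∫ η in U, ‖g η‖ ^ 2) * (x * x) +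
      (-(2 * ∫ η in U, ‖g η‖ * ‖k η‖)) * x + ∫ η in U, ‖k η‖ ^ 2 := by
    intro x
    have h3 : 0 ≤ ∫ η in U, (x * x * ‖g η‖ ^ 2 + (-(2 * x)) * (‖g η‖ * ‖k η‖) + ‖k η‖ ^ 2) := by
      refine integral_nonneg fun η => ?_
      have : x * x * ‖g η‖ ^ 2 + (-(2 * x)) * (‖g η‖ * ‖k η‖) + ‖k η‖ ^ 2 =
          (x * ‖g η‖ - ‖k η‖) ^ 2 := by ring
      change 0 ≤ x * x * ‖g η‖ ^ 2 + (-(2 * x)) * (‖g η‖ * ‖k η‖) + ‖k η‖ ^ 2
      rw [this]
      positivity
    have e1 : ∫ η in U, (x * x * ‖g η‖ ^ 2 + (-(2 * x)) * (‖g η‖ * ‖k η‖) + ‖k η‖ ^ 2) =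
        (∫ η in U, (x * x * ‖g η‖ ^ 2 + (-(2 * x)) * (‖g η‖ * ‖k η‖))) + ∫ η in U, ‖k η‖ ^ 2 :=
      integral_add ((i1.const_mul _).add (i3.const_mul _)) i2
    have e2 : ∫ η in U, (x * x * ‖g η‖ ^ 2 + (-(2 * x)) * (‖g η‖ * ‖k η‖)) =
        (∫ η in U, x * x * ‖g η‖ ^ 2) + ∫ η in U, (-(2 * x)) * (‖g η‖ * ‖k η‖) :=
      integral_add (i1.const_mul _) (i3.const_mul _)
    rw [e1, e2, integral_const_mul, integral_const_mul] at h3
    linarith
  have h3 := discrim_le_zero h2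
  unfold discrim at h3
  have h4 : 0 ≤ ∫ η in U, ‖g η‖ * ‖k η‖ := integral_nonneg fun η => by positivity
  have h5 := norm_nonneg (∫ η in U, g η * k η)
  nlinarith

/-- the exponential sums of the windows -/
noncomputable def FF (f : ℕ → ℤ) (θ : UnitAddCircle) (n L : ℕ) (η : UnitAddCircle) : ℂ :=
  ∑ h ∈ range L, (((f (n + h) : ℝ) : ℂ) * fourier (h : ℤ) θ) * fourier (h : ℤ) η

theorem FF_cont (f : ℕ → ℤ) (θ : UnitAddCircle) (n L : ℕ) : Continuous (FF f θ n L) := by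
  unfold FF
  exact continuous_finsetSum _ fun h _ => continuous_const.mul (map_continuous (fourier (h : ℤ)))

variable {δ : ℝ} {a : ℤ → ℂ} {K : Set UnitAddCircle} {f : ℕ → ℤ}

theorem window_id (ha : ∀ n, ‖a n‖ ≤ 1) (h0 : 0 < δ) (θ : UnitAddCircle) (A L n : ℕ) :
    ∑ h ∈ range L, (((f (n + h) : ℝ) : ℂ) * fourier (h : ℤ) θ) * ((wd δ A L h : ℂ) * a h) =
      ∫ η : UnitAddCircle, GG a δ A L η * FF f θ n L η := by
  have hc := GG_cont ha h0 A L
  have e : ∀ η, GG a δ A L η * FF f θ n L η =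
      ∑ h ∈ range L, (((f (n + h) : ℝ) : ℂ) * fourier (h : ℤ) θ) *
        ((fourier (h : ℤ) η : ℂ) * GG a δ A L η) := by
    intro η
    unfold FF
    rw [mul_sum]
    exact sum_congr rfl fun h _ => by ring
  simp only [e]
  have hi : ∀ h ∈ range L, Integrable (fun η : UnitAddCircle =>
      (((f (n + h) : ℝ) : ℂ) * fourier (h : ℤ) θ) *
        ((fourier (h : ℤ) η : ℂ) * GG a δ A L η)) volume := fun h _ =>
    integrable_cont (continuous_const.mul ((map_continuous (fourier (h : ℤ))).mul hc))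
  rw [integral_finsetSum _ hi]
  refine sum_congr rfl fun h _ => ?_
  rw [integral_const_mul, GG_coeff ha h0 A L (h : ℤ)]

theorem window_bound (hf : ∀ n, |f n| ≤ 1) (ha : ∀ n, ‖a n‖ ≤ 1) (hs : SpecIn K a) (h0 : 0 < δ)
    (h1 : δ ≤ 1 / 2) {τ : ℝ} {A L : ℕ} (hA : ∀ n : ℤ, 0 ≤ n → n < L → 1 - wd δ A L n ≤ τ)
    (θ : UnitAddCircle) (n : ℕ) :
    ‖∑ h ∈ range L, (((f (n + h) : ℝ) : ℂ) * fourier (h : ℤ) θ) * a h‖ ≤
      Real.sqrt ((L + 2 * A) * ∫ η in Metric.cthickening δ K, ‖FF f θ n L η‖ ^ 2) + τ * L := by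
  have hc := GG_cont ha h0 A L
  have e1 : ∑ h ∈ range L, (((f (n + h) : ℝ) : ℂ) * fourier (h : ℤ) θ) * a h =
      (∫ η : UnitAddCircle, GG a δ A L η * FF f θ n L η) +
        ∑ h ∈ range L, (((f (n + h) : ℝ) : ℂ) * fourier (h : ℤ) θ) *
          (((1 - wd δ A L h : ℝ) : ℂ) * a h) := by
    rw [← window_id ha h0, ← sum_add_distrib]
    refine sum_congr rfl fun h _ => ?_
    push_cast
    ring
  have e2 : ∫ η : UnitAddCircle, GG a δ A L η * FF f θ n L η =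
      ∫ η in Metric.cthickening δ K, GG a δ A L η * FF f θ n L η := by
    symm
    apply setIntegral_eq_integral_of_forall_compl_eq_zero
    intro η hη
    have : GG a δ A L η = 0 := by
      refine GG_zero hs h0 h1 A L fun ζ hζ => ?_
      by_contra hcon
      push Not at hcon
      apply hη
      refine Metric.mem_cthickening_of_dist_le η ζ δ K hζ ?_
      rw [dist_comm, dist_eq_norm]
      exact hcon
    rw [this, zero_mul]
  rw [e1]
  refine (norm_add_le _ _).trans (add_le_add ?_ ?_)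
  · rw [e2]
    apply Real.le_sqrt_of_sq_le
    refine (cs _ hc (FF_cont f θ n L)).trans ?_
    apply mul_le_mul_of_nonneg_right _ (integral_nonneg fun η => by positivity)
    refine le_trans ?_ (GG_sq ha h0 h1 A L)
    exact setIntegral_le_integral (Continuous.integrable_of_hasCompactSupport (hc.norm.pow 2)
      (HasCompactSupport.of_compactSpace _)) (Filter.Eventually.of_forall fun η => by positivity)
  · refine (norm_sum_le _ _).trans ?_
    have : ∀ h ∈ range L, ‖(((f (n + h) : ℝ) : ℂ) * fourier (h : ℤ) θ) *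
        (((1 - wd δ A L h : ℝ) : ℂ) * a h)‖ ≤ τ := by
      intro h hh
      rw [mem_range] at hh
      have h2 := hA h (by omega) (by omega)
      have h3 : 0 ≤ 1 - wd δ A L h := by linarith [wd_le h0 h1 A L h]
      have h4 : ‖((f (n + h) : ℝ) : ℂ) * fourier (h : ℤ) θ‖ ≤ 1 := by
        rw [norm_mul, norm_fourier_apply, mul_one, Complex.norm_real, Real.norm_eq_abs]
        exact_mod_cast hf (n + h)
      rw [norm_mul, norm_mul ((1 - wd δ A L h : ℝ) : ℂ), Complex.norm_real (1 - wd δ A L h),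
        Real.norm_eq_abs, abs_of_nonneg h3]
      calc _ ≤ 1 * ((1 - wd δ A L h) * 1) :=
            mul_le_mul h4 (mul_le_mul_of_nonneg_left (ha h) h3) (by positivity) zero_le_one
        _ ≤ τ := by linarith
    refine (sum_le_sum this).trans (le_of_eq ?_)
    rw [sum_const, card_range, nsmul_eq_mul]
    ring

/-- the mean square of the sums over the frequencies in a set -/
theorem freq_bound (hf : ∀ n, |f n| ≤ 1) (hT : TwoPoint f) (L : ℕ) (hL : 1 ≤ L) (κ : ℝ)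
    (hκ : 0 < κ) : ∃ N₀ : ℕ, 3 ≤ N₀ ∧ ∀ N : ℕ, N₀ ≤ N → ∀ U : Set UnitAddCircle, MeasurableSet U →
      ∀ θ : UnitAddCircle,
      S (fun n => ∫ η in U, ‖FF f θ n L η‖ ^ 2) N ≤ (1 + κ) * L * volume.real U * Real.log N := by
  obtain ⟨N₀, h3, hN₀⟩ := meansq' hf hT L hL κ hκ
  refine ⟨N₀, h3, fun N hN U hU θ => ?_⟩
  have e : S (fun n => ∫ η in U, ‖FF f θ n L η‖ ^ 2) N =
      ∫ η in U, S (fun n => ‖FF f θ n L η‖ ^ 2) N := by
    unfold S
    have hi : ∀ n ∈ Icc 1 N, Integrable (fun η => 1 / (n : ℝ) * ‖FF f θ n L η‖ ^ 2)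
        (volume.restrict U) := fun n _ =>
      (integrableOn_cont ((FF_cont f θ n L).norm.pow 2) U).const_mul _
    rw [integral_finsetSum _ hi]
    refine sum_congr rfl fun n _ => ?_
    rw [integral_const_mul]
  rw [e]
  have hb : ∀ η, S (fun n => ‖FF f θ n L η‖ ^ 2) N ≤ (1 + κ) * L * Real.log N := by
    intro η
    have h4 := hN₀ N hN (fun h => (fourier (h : ℤ) θ : ℂ) * fourier (h : ℤ) η)
    have e5 : (fun n => ‖FF f θ n L η‖ ^ 2) = fun n =>
        ‖∑ h ∈ range L, ((f (n + h) : ℝ) : ℂ) * ((fourier (h : ℤ) θ : ℂ) * fourier (h : ℤ) η)‖ ^ 2 := by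
      funext n
      unfold FF
      simp only [mul_assoc]
    rw [e5]
    refine h4.trans (le_of_eq ?_)
    simp only [norm_mul, norm_fourier_apply, one_pow, sum_const, card_range, nsmul_eq_mul, mul_one]
  have hc : Continuous fun η => S (fun n => ‖FF f θ n L η‖ ^ 2) N := by
    unfold S
    exact continuous_finsetSum _ fun n _ => continuous_const.mul ((FF_cont f θ n L).norm.pow 2)
  calc ∫ η in U, S (fun n => ‖FF f θ n L η‖ ^ 2) N ≤ ∫ _ in U, (1 + κ) * L * Real.log N := by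
        refine setIntegral_mono_on (integrableOn_cont hc U) ?_ hU fun η _ => hb η
        exact integrableOn_cont continuous_const U
    _ = _ := by
        rw [setIntegral_const, smul_eq_mul]
        ring

theorem exists_thick (hK : IsClosed K) (ε : ℝ) (hε : 0 < ε) : ∃ δ : ℝ, 0 < δ ∧ δ ≤ 1 / 2 ∧
    volume.real (Metric.cthickening δ K) ≤ volume.real K + ε := by
  have h1 := tendsto_measure_cthickening_of_isClosed (μ := (volume : Measure UnitAddCircle))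
    (s := K) ⟨1, one_pos, measure_ne_top _ _⟩ hK
  have h2 : Tendsto (fun r => volume.real (Metric.cthickening r K)) (𝓝 0) (𝓝 (volume.real K)) :=
    (ENNReal.tendsto_toReal (measure_ne_top _ _)).comp h1
  have h3 : ∀ᶠ r : ℝ in 𝓝 0, volume.real (Metric.cthickening r K) < volume.real K + ε :=
    h2.eventually (gt_mem_nhds (by linarith))
  obtain ⟨r, hr, h4⟩ := Metric.eventually_nhds_iff.1 h3
  refine ⟨min (r / 2) (1 / 2), by positivity, min_le_right _ _, (h4 ?_).le⟩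
  rw [dist_zero_right, Real.norm_eq_abs, abs_of_pos (by positivity)]
  exact (min_le_left _ _).trans_lt (by linarith)

/-- **Windows of bounded sequences with spectrum in a closed set.** -/
theorem windows (hf : ∀ n, |f n| ≤ 1) (hT : TwoPoint f) (hK : IsClosed K) (ε : ℝ) (hε : 0 < ε) :
    ∃ L₀ : ℕ, 1 ≤ L₀ ∧ ∀ L : ℕ, L₀ ≤ L → ∃ N₀ : ℕ, 3 ≤ N₀ ∧ ∀ N : ℕ, N₀ ≤ N →
      ∀ (θ : UnitAddCircle) (a : ℕ → ℤ → ℂ), (∀ n, a n ∈ XK K) →
      S (fun n => ‖∑ h ∈ range L, (((f (n + h) : ℝ) : ℂ) * fourier (h : ℤ) θ) * a n h‖ ^ 2) N ≤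
        (volume.real K + ε) * L ^ 2 * Real.log N := by
  wlog hε1 : ε ≤ 1 generalizing ε with hw
  · obtain ⟨L₀, h1, h2⟩ := hw 1 one_pos le_rfl
    refine ⟨L₀, h1, fun L hL => ?_⟩
    obtain ⟨N₀, h3, h4⟩ := h2 L hL
    refine ⟨N₀, h3, fun N hN θ a ha => (h4 N hN θ a ha).trans ?_⟩
    have hl := one_le_log (h3.trans hN)
    have : (0 : ℝ) ≤ (L : ℝ) ^ 2 * Real.log N := by positivity
    push Not at hε1
    nlinarith
  obtain ⟨v, hv⟩ : ∃ v, v = volume.real K := ⟨_, rfl⟩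
  have hv0 : 0 ≤ v := hv ▸ measureReal_nonneg
  have hv1 : v ≤ 1 := by
    have h := measureReal_mono (μ := (volume : Measure UnitAddCircle)) (Set.subset_univ K)
    rw [vol_univ] at h
    rw [hv]
    exact h
  rw [← hv]
  obtain ⟨δ, h0, h1, hδ⟩ := exists_thick hK (ε / 4) (by positivity)
  rw [← hv] at hδ
  obtain ⟨u, hu⟩ : ∃ u, u = volume.real (Metric.cthickening δ K) := ⟨_, rfl⟩
  rw [← hu] at hδ
  have hu0 : 0 ≤ u := hu ▸ measureReal_nonneg
  obtain ⟨κ, hκ⟩ : ∃ κ, κ = ε / 56 := ⟨_, rfl⟩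
  have hκ0 : 0 < κ := by rw [hκ]; positivity
  have hκ1 : κ ≤ 1 := by rw [hκ]; linarith
  obtain ⟨τ, hτ⟩ : ∃ τ, τ = Real.sqrt (κ * ε / 16) := ⟨_, rfl⟩
  have hτ0 : 0 < τ := by rw [hτ]; positivity
  have hτ2 : τ ^ 2 = κ * ε / 16 := by rw [hτ, Real.sq_sqrt (by positivity)]
  obtain ⟨A, hA⟩ := exists_tail h0 h1 τ hτ0
  refine ⟨max 1 ⌈2 * A / κ⌉₊, le_max_left _ _, fun L hL => ?_⟩
  have hL1 : 1 ≤ L := (le_max_left _ _).trans hL
  have hL0 : (0 : ℝ) < L := by exact_mod_cast hL1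
  have hLA : (L : ℝ) + 2 * A ≤ (1 + κ) * L := by
    have h2 : 2 * A / κ ≤ L := (Nat.le_ceil _).trans (by exact_mod_cast (le_max_right _ _).trans hL)
    rw [div_le_iff₀ hκ0] at h2
    linarith
  obtain ⟨N₀, h3, hN₀⟩ := freq_bound hf hT L hL1 κ hκ0
  refine ⟨N₀, h3, fun N hN θ a ha => ?_⟩
  have hl := one_le_log (h3.trans hN)
  have h4 := hN₀ N hN _ (Metric.isClosed_cthickening (δ := δ) (E := K)).measurableSet θ
  rw [← hu] at h4
  obtain ⟨Q, hQ⟩ : ∃ Q : ℕ → ℝ, Q = fun n =>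
    ∫ η in Metric.cthickening δ K, ‖FF f θ n L η‖ ^ 2 := ⟨_, rfl⟩
  have hQ0 : ∀ n, 0 ≤ Q n := fun n => by
    rw [hQ]; exact integral_nonneg fun η => by positivity
  rw [← hQ] at h4
  have h5 : ∀ n, ‖∑ h ∈ range L, (((f (n + h) : ℝ) : ℂ) * fourier (h : ℤ) θ) * a n h‖ ^ 2 ≤
      (1 + κ) * (L + 2 * A) * Q n + (1 + 1 / κ) * τ ^ 2 * L ^ 2 := by
    intro n
    have h6 := window_bound hf (ha n).1 (ha n).2 h0 h1 (τ := τ) (A := A) (L := L) (hA L) θ n
    have h7 : 0 ≤ ((L : ℝ) + 2 * A) * Q n := mul_nonneg (by positivity) (hQ0 n)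
    have h8 : ((L : ℝ) + 2 * A) * Q n =
        ((L : ℝ) + 2 * A) * ∫ η in Metric.cthickening δ K, ‖FF f θ n L η‖ ^ 2 := by rw [hQ]
    rw [← h8] at h6
    have h9 := Real.sq_sqrt h7
    set x := Real.sqrt (((L : ℝ) + 2 * A) * Q n) with hx
    have hx0 : 0 ≤ x := Real.sqrt_nonneg _
    have h10 : (x + τ * L) ^ 2 ≤ (1 + κ) * x ^ 2 + (1 + 1 / κ) * (τ * L) ^ 2 := by
      have h11 : 0 ≤ (κ * x - τ * L) ^ 2 / κ := by positivity
      have h12 : (κ * x - τ * L) ^ 2 / κ = κ * x ^ 2 - 2 * x * (τ * L) + 1 / κ * (τ * L) ^ 2 := by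
        field_simp
        ring
      nlinarith
    have h11 := norm_nonneg (∑ h ∈ range L, (((f (n + h) : ℝ) : ℂ) * fourier (h : ℤ) θ) * a n h)
    calc _ ≤ (x + τ * L) ^ 2 := pow_le_pow_left₀ h11 h6 2
      _ ≤ (1 + κ) * x ^ 2 + (1 + 1 / κ) * (τ * L) ^ 2 := h10
      _ = _ := by rw [h9]; ring
  have h6 := S_mono h5 N
  rw [S_add (fun n => (1 + κ) * (L + 2 * A) * Q n) (fun _ => (1 + 1 / κ) * τ ^ 2 * L ^ 2),
    S_cmul, S_const] at h6
  refine h6.trans ?_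
  have hH : H N ≤ 2 * Real.log N := by linarith [H_le N]
  have hSQ : 0 ≤ S Q N := sum_nonneg fun n _ => mul_nonneg (by positivity) (hQ0 n)
  have h7 : (1 + κ) * (L + 2 * A) * S Q N ≤
      (1 + κ) * ((1 + κ) * L) * ((1 + κ) * L * u * Real.log N) :=
    mul_le_mul (mul_le_mul_of_nonneg_left hLA (by positivity)) h4 hSQ (by positivity)
  have h8 : (1 + 1 / κ) * τ ^ 2 * L ^ 2 * H N ≤ (1 + 1 / κ) * τ ^ 2 * L ^ 2 * (2 * Real.log N) := by
    apply mul_le_mul_of_nonneg_left hH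
    positivity
  refine (add_le_add h7 h8).trans ?_
  have h9 : (1 + κ) ^ 3 * u + (1 + 1 / κ) * τ ^ 2 * 2 ≤ v + ε := by
    have h10 : (1 + κ) ^ 3 ≤ 1 + 7 * κ := by nlinarith [mul_nonneg hκ0.le hκ0.le]
    have h11 : (1 + κ) ^ 3 * u ≤ (1 + 7 * κ) * u := mul_le_mul_of_nonneg_right h10 hu0
    have hu2 : u ≤ 2 := by linarith
    have h12 : 7 * κ * u ≤ ε / 4 := by
      have : 7 * κ * u ≤ 7 * κ * 2 := mul_le_mul_of_nonneg_left hu2 (by positivity)
      rw [hκ] at this ⊢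
      linarith
    have h13 : (1 + 1 / κ) * τ ^ 2 * 2 = (κ + 1) * ε / 8 := by
      rw [hτ2]
      field_simp
      ring
    have h14 : (κ + 1) * ε / 8 ≤ ε / 4 := by nlinarith
    nlinarith
  calc (1 + κ) * ((1 + κ) * L) * ((1 + κ) * L * u * Real.log N) +
        (1 + 1 / κ) * τ ^ 2 * L ^ 2 * (2 * Real.log N) =
        ((1 + κ) ^ 3 * u + (1 + 1 / κ) * τ ^ 2 * 2) * (L ^ 2 * Real.log N) := by ring
    _ ≤ (v + ε) * (L ^ 2 * Real.log N) := mul_le_mul_of_nonneg_right h9 (by positivity)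
    _ = _ := by ring

end Pool.Agent.X84.Sp
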